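import Pool.Agent.W744.GL.Stm
import Pool.Agent.Helper503.Gp.Cay

set_option autoImplicit false

open Metric Set Filter Topology Complex
open scoped ComplexConjugate

/-! GL-IF: interpolation on a horizontal lattice -/

namespace Pool.Agent.W356.GL.IF
open Pool.Agent.W744.GL
open Pool.Agent.Helper503.Gp (HI IsChar Gl bfac cay PH BlaOn BF mu cay_mem cay_surj)

lemma summ : Summable (fun n : ℤ => 1 / (1 + (n:ℝ) ^ 2)) := by
  have h1 : Summable (fun n : ℤ => 1 / (n:ℝ) ^ 2) :=
    Real.summable_one_div_int_pow.2 (by norm_num)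
  have h2 : Summable (fun n : ℤ => if n = 0 then (1:ℝ) else 0) := (hasSum_ite_eq 0 1).summable
  refine Summable.of_nonneg_of_le (fun n => by positivity) (fun n => ?_) (h1.add h2)
  by_cases hn : n = 0
  · simp [hn]
  · have h3 : (0:ℝ) < (n:ℝ) ^ 2 := by positivity
    simp only [hn, if_false, add_zero]
    exact one_div_le_one_div_of_le h3 (by linarith)

lemma shift_bound (u v : ℝ) (hv : |v| ≤ 1) : 1 / (1 + (u - v) ^ 2) ≤ 3 * (1 / (1 + u ^ 2)) := by
  have h1 : 0 < 1 + (u - v) ^ 2 := by positivity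
  have h2 : 0 < 1 + u ^ 2 := by positivity
  have hv2 : v ^ 2 ≤ 1 := by
    rw [← sq_abs]
    exact pow_le_one₀ (abs_nonneg v) hv
  rw [mul_one_div, div_le_div_iff₀ h1 h2]
  nlinarith [sq_nonneg (u - 2 * v)]

/-- the building block -/
noncomputable def f0 (ζ w : ℂ) : ℂ :=
  dslope (fun w => cexp (2 * Real.pi * I * w)) ζ w / (2 * Real.pi * I * cexp (2 * Real.pi * I * ζ)) *
    (2 * I * (ζ.im : ℂ) / (w - conj ζ))

lemma ne_conj {ζ w : ℂ} (hζ : 0 < ζ.im) (hw : 0 < w.im) : w - conj ζ ≠ 0 := by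
  intro h
  have h1 := congrArg Complex.im h
  simp at h1
  linarith

lemma f0_diff (ζ : ℂ) (hζ : 0 < ζ.im) : DifferentiableOn ℂ (f0 ζ) {w | 0 < w.im} := by
  unfold f0
  have h1 : DifferentiableOn ℂ (dslope (fun w => cexp (2 * Real.pi * I * w)) ζ) Set.univ := by
    rw [Complex.differentiableOn_dslope univ_mem]
    have : Differentiable ℂ (fun w => cexp (2 * Real.pi * I * w)) := by fun_prop
    exact this.differentiableOn
  have h2 : DifferentiableOn ℂ (fun w => 2 * I * (ζ.im : ℂ) / (w - conj ζ)) {w | 0 < w.im} := by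
    apply DifferentiableOn.div
    · fun_prop
    · fun_prop
    · intro w hw
      exact ne_conj hζ hw
  exact ((h1.mono (subset_univ _)).div_const _).mul h2

lemma two_pi_I_ne : (2 * Real.pi * I : ℂ) ≠ 0 := by
  have : (Real.pi : ℂ) ≠ 0 := by exact_mod_cast Real.pi_ne_zero
  simp [this]

lemma hasDeriv (w : ℂ) : HasDerivAt (fun w => cexp (2 * Real.pi * I * w))
    (2 * Real.pi * I * cexp (2 * Real.pi * I * w)) w := by
  have h1 : HasDerivAt (fun w : ℂ => 2 * Real.pi * I * w) (2 * Real.pi * I) w := by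
    simpa using (hasDerivAt_id w).const_mul (2 * Real.pi * I : ℂ)
  exact h1.cexp.congr_deriv (mul_comm _ _)

lemma f0_self (ζ : ℂ) (hζ : 0 < ζ.im) : f0 ζ ζ = 1 := by
  unfold f0
  rw [dslope_same, (hasDeriv ζ).deriv, div_self, one_mul]
  · have h1 : ζ - conj ζ = 2 * I * (ζ.im : ℂ) := by
      rw [Complex.sub_conj]
      push_cast
      ring
    rw [h1, div_self]
    have h2 := ne_conj hζ hζ
    rwa [h1] at h2
  · exact mul_ne_zero two_pi_I_ne (Complex.exp_ne_zero _)

lemma exp_int (ζ : ℂ) (k : ℤ) : cexp (2 * Real.pi * I * (ζ + k)) = cexp (2 * Real.pi * I * ζ) := by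
  have h1 : 2 * Real.pi * I * (ζ + k) = 2 * Real.pi * I * ζ + k * (2 * Real.pi * I) := by ring
  rw [h1, Complex.exp_add, Complex.exp_int_mul_two_pi_mul_I, mul_one]

lemma f0_int (ζ : ℂ) (k : ℤ) (hk : k ≠ 0) : f0 ζ (ζ + k) = 0 := by
  unfold f0
  have h1 : ζ + k ≠ ζ := by
    intro h
    have : (k : ℂ) = 0 := by linear_combination h
    exact hk (by exact_mod_cast this)
  rw [dslope_of_ne _ h1, slope_def_field, exp_int]
  simp

lemma exp_norm_le {w : ℂ} (hw : 0 < w.im) : ‖cexp (2 * Real.pi * I * w)‖ ≤ 1 := by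
  rw [Complex.norm_exp]
  have h1 : (2 * Real.pi * I * w).re = -(2 * Real.pi * w.im) := by
    simp
  rw [h1, Real.exp_le_one_iff]
  have := Real.pi_pos
  have : 0 < 2 * Real.pi * w.im := by positivity
  linarith

lemma dslope_bound1 {ζ w : ℂ} (hζ : 0 < ζ.im) (hw : 0 < w.im) :
    ‖dslope (fun w => cexp (2 * Real.pi * I * w)) ζ w‖ ≤ 2 * Real.pi := by
  have hn : ‖(2 * Real.pi * I : ℂ)‖ = 2 * Real.pi := by
    simp [abs_of_pos Real.pi_pos]
  have hd : ∀ x : ℂ, 0 < x.im → ‖deriv (fun w => cexp (2 * Real.pi * I * w)) x‖ ≤ 2 * Real.pi := by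
    intro x hx
    rw [(hasDeriv x).deriv, norm_mul, hn]
    have := exp_norm_le hx
    have hp := Real.pi_pos
    nlinarith
  by_cases h : w = ζ
  · rw [h, dslope_same]
    exact hd ζ hζ
  · rw [dslope_of_ne _ h, slope_def_field, norm_div]
    have h1 := Convex.norm_image_sub_le_of_norm_deriv_le (𝕜 := ℂ)
      (f := fun w => cexp (2 * Real.pi * I * w)) (C := 2 * Real.pi) (s := {w : ℂ | 0 < w.im})
      (x := ζ) (y := w) (fun x _ => (hasDeriv x).differentiableAt) (fun x hx => hd x hx)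
      (convex_halfSpace_im_gt 0) hζ hw
    have h2 : 0 < ‖w - ζ‖ := norm_pos_iff.2 (sub_ne_zero.2 h)
    rw [div_le_iff₀ h2]
    exact h1

lemma dslope_bound2 {ζ w : ℂ} (hζ : 0 < ζ.im) (hw : 0 < w.im) :
    |w.re - ζ.re| * ‖dslope (fun w => cexp (2 * Real.pi * I * w)) ζ w‖ ≤ 2 := by
  by_cases h : w = ζ
  · rw [h]
    simp
  · have h1 : |w.re - ζ.re| ≤ ‖w - ζ‖ := by
      have := Complex.abs_re_le_norm (w - ζ)
      simpa using this
    have h2 : 0 < ‖w - ζ‖ := norm_pos_iff.2 (sub_ne_zero.2 h)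
    have h3 : ‖w - ζ‖ * ‖dslope (fun w => cexp (2 * Real.pi * I * w)) ζ w‖ ≤ 2 := by
      rw [dslope_of_ne _ h, slope_def_field, norm_div, mul_div_cancel₀ _ h2.ne']
      refine (norm_sub_le _ _).trans ?_
      have := exp_norm_le hw
      have := exp_norm_le hζ
      linarith
    refine le_trans ?_ h3
    exact mul_le_mul_of_nonneg_right h1 (norm_nonneg _)

lemma f0_bound (ζ : ℂ) (hζ : 0 < ζ.im) : ∃ K : ℝ, 0 < K ∧ ∀ w : ℂ, 0 < w.im →
    ‖f0 ζ w‖ ≤ K * (1 / (1 + (w.re - ζ.re) ^ 2)) := by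
  obtain ⟨A, hA, hAe⟩ : ∃ A : ℝ, 0 < A ∧
      A = ‖(2 * Real.pi * I * cexp (2 * Real.pi * I * ζ))‖⁻¹ * (2 * ζ.im) := by
    refine ⟨_, ?_, rfl⟩
    have h1 : 0 < ‖(2 * Real.pi * I * cexp (2 * Real.pi * I * ζ))‖ :=
      norm_pos_iff.2 (mul_ne_zero two_pi_I_ne (Complex.exp_ne_zero _))
    positivity
  refine ⟨A * (2 * Real.pi / ζ.im + 2), by have := Real.pi_pos; positivity, ?_⟩
  intro w hw
  obtain ⟨D, hD⟩ : ∃ D : ℝ, D = ‖dslope (fun w => cexp (2 * Real.pi * I * w)) ζ w‖ := ⟨_, rfl⟩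
  have hD0 : 0 ≤ D := by rw [hD]; exact norm_nonneg _
  have hD1 : D ≤ 2 * Real.pi := by rw [hD]; exact dslope_bound1 hζ hw
  have hD2 : |w.re - ζ.re| * D ≤ 2 := by rw [hD]; exact dslope_bound2 hζ hw
  obtain ⟨q, hq⟩ : ∃ q : ℝ, q = ‖w - conj ζ‖ := ⟨_, rfl⟩
  have hq1 : ζ.im ≤ q := by
    rw [hq]
    have := Complex.abs_im_le_norm (w - conj ζ)
    simp only [Complex.sub_im, Complex.conj_im, sub_neg_eq_add] at this
    rw [abs_of_pos (by linarith)] at this
    linarith
  have hq2 : |w.re - ζ.re| ≤ q := by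
    rw [hq]
    have := Complex.abs_re_le_norm (w - conj ζ)
    simpa using this
  have hq0 : 0 < q := lt_of_lt_of_le hζ hq1
  have hf : ‖f0 ζ w‖ = A * (D / q) := by
    unfold f0
    rw [norm_mul, norm_div, norm_div, ← hD, ← hq, hAe]
    have h1 : ‖2 * I * (ζ.im : ℂ)‖ = 2 * ζ.im := by
      simp [abs_of_pos hζ]
    rw [h1]
    ring
  rw [hf, mul_one_div, le_div_iff₀ (by positivity), mul_assoc]
  apply mul_le_mul_of_nonneg_left _ hA.le
  have h1 : D / q ≤ 2 * Real.pi / ζ.im := by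
    apply div_le_div₀ (by have := Real.pi_pos; positivity) hD1 hζ hq1
  have h2 : D / q * (w.re - ζ.re) ^ 2 ≤ 2 := by
    rw [← sq_abs, div_mul_eq_mul_div, div_le_iff₀ hq0]
    calc D * |w.re - ζ.re| ^ 2 = (|w.re - ζ.re| * D) * |w.re - ζ.re| := by ring
      _ ≤ 2 * q := by
        apply mul_le_mul hD2 hq2 (abs_nonneg _) (by norm_num)
  rw [mul_add, mul_one]
  linarith

theorem main : S_IF := by
  intro ζ hζ
  obtain ⟨K, hK, hKb⟩ := f0_bound ζ hζ
  obtain ⟨s0, hs0⟩ : ∃ s0 : ℝ, s0 = ∑' n : ℤ, 1 / (1 + (n:ℝ) ^ 2) := ⟨_, rfl⟩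
  have hs0' : 0 ≤ s0 := by
    rw [hs0]
    exact tsum_nonneg fun n => by positivity
  refine ⟨K * (3 * s0) + 1, by positivity, ?_⟩
  intro a ha
  -- the function in the half plane
  obtain ⟨F, hF⟩ : ∃ F : ℂ → ℂ, F = fun w => ∑' n : ℤ, a n * f0 ζ (w - n) := ⟨_, rfl⟩
  have him : ∀ (w : ℂ) (n : ℤ), (w - n).im = w.im := by
    intro w n
    simp
  have hre : ∀ (w : ℂ) (n : ℤ), (w - n).re = w.re - n := by
    intro w n
    simp
  have hterm : ∀ (w : ℂ) (n : ℤ), 0 < w.im →
      ‖a n * f0 ζ (w - n)‖ ≤ K * (1 / (1 + (w.re - n - ζ.re) ^ 2)) := by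
    intro w n hw
    have h1 := hKb (w - n) (by rw [him]; exact hw)
    rw [hre] at h1
    rw [norm_mul]
    calc ‖a n‖ * ‖f0 ζ (w - n)‖ ≤ 1 * ‖f0 ζ (w - n)‖ :=
          mul_le_mul_of_nonneg_right (ha n) (norm_nonneg _)
      _ ≤ _ := by rw [one_mul]; exact h1
  have hdiff : DifferentiableOn ℂ F {w | 0 < w.im} := by
    intro w₀ hw₀
    obtain ⟨R, hR⟩ : ∃ R : ℝ, |w₀.re - ζ.re| < R := ⟨|w₀.re - ζ.re| + 1, by linarith⟩
    obtain ⟨W, hW⟩ : ∃ W : Set ℂ, W = {w : ℂ | 0 < w.im ∧ |w.re - ζ.re| < R} := ⟨_, rfl⟩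
    have hWo : IsOpen W := by
      rw [hW]
      apply IsOpen.inter
      · exact isOpen_lt continuous_const Complex.continuous_im
      · have hc : Continuous fun w : ℂ => |w.re - ζ.re| := by fun_prop
        exact isOpen_lt hc continuous_const
    have hWd : DifferentiableOn ℂ F W := by
      rw [hF]
      apply differentiableOn_tsum_of_summable_norm
        (u := fun n : ℤ => K * ((3 + 2 * R ^ 2) * (1 / (1 + (n:ℝ) ^ 2))))
      · exact (summ.mul_left _).mul_left _
      · intro n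
        have h1 : DifferentiableOn ℂ (fun w : ℂ => f0 ζ (w - n)) W := by
          apply (f0_diff ζ hζ).comp (t := {w | 0 < w.im}) (f := fun w : ℂ => w - n)
          · fun_prop
          · intro w hw
            rw [hW] at hw
            change 0 < (w - n).im
            rw [him]
            exact hw.1
        exact h1.const_mul (a n)
      · exact hWo
      · intro n w hw
        rw [hW] at hw
        refine (hterm w n hw.1).trans ?_
        apply mul_le_mul_of_nonneg_left _ hK.le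
        obtain ⟨x, hx⟩ : ∃ x : ℝ, x = w.re - ζ.re := ⟨_, rfl⟩
        have h2 : w.re - n - ζ.re = x - n := by rw [hx]; ring
        rw [h2]
        have h3 : x ^ 2 ≤ R ^ 2 := by
          rw [← sq_abs]
          rw [hx]
          exact pow_le_pow_left₀ (abs_nonneg _) hw.2.le 2
        have h4 : 0 < 1 + (x - n) ^ 2 := by positivity
        have h5 : 0 < 1 + (n:ℝ) ^ 2 := by positivity
        rw [mul_one_div, div_le_div_iff₀ h4 h5]
        nlinarith [sq_nonneg (2 * x - n), sq_nonneg (x - n), mul_nonneg (sq_nonneg (x - n)) (sq_nonneg R)]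
    have hmem : w₀ ∈ W := by
      rw [hW]
      exact ⟨hw₀, hR⟩
    exact ((hWd w₀ hmem).differentiableAt (hWo.mem_nhds hmem)).differentiableWithinAt
  have hbound : ∀ w : ℂ, 0 < w.im → ‖F w‖ ≤ K * (3 * s0) := by
    intro w hw
    obtain ⟨x, hx⟩ : ∃ x : ℝ, x = w.re - ζ.re := ⟨_, rfl⟩
    have hle : ∀ n : ℤ, ‖a n * f0 ζ (w - n)‖ ≤
        K * (3 * (1 / (1 + ((n - ⌊x⌋ : ℤ) : ℝ) ^ 2))) := by
      intro n
      refine (hterm w n hw).trans ?_
      apply mul_le_mul_of_nonneg_left _ hK.le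
      have h1 := shift_bound ((n - ⌊x⌋ : ℤ) : ℝ) (Int.fract x) (by
        rw [abs_of_nonneg (Int.fract_nonneg x)]
        exact (Int.fract_lt_one x).le)
      have h2 : (((n - ⌊x⌋ : ℤ) : ℝ) - Int.fract x) ^ 2 = (w.re - n - ζ.re) ^ 2 := by
        have h3 := Int.floor_add_fract x
        have h4 : Int.fract x = x - ⌊x⌋ := by linarith
        rw [h4, hx]
        push_cast
        ring
      rw [h2] at h1
      exact h1
    have hsum : HasSum (fun n : ℤ => K * (3 * (1 / (1 + ((n - ⌊x⌋ : ℤ) : ℝ) ^ 2)))) (K * (3 * s0)) := by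
      apply HasSum.mul_left
      apply HasSum.mul_left
      have h1 : HasSum (fun n : ℤ => 1 / (1 + (n:ℝ) ^ 2)) s0 := by
        rw [hs0]
        exact summ.hasSum
      exact (Equiv.subRight ⌊x⌋).hasSum_iff.2 h1
    rw [hF]
    exact tsum_of_norm_bounded hsum hle
  have hval : ∀ n : ℤ, F (lat ζ n) = a n := by
    intro n
    rw [hF]
    simp only []
    rw [tsum_eq_single n]
    · have : lat ζ n - n = ζ := by unfold lat; ring
      rw [this, f0_self ζ hζ, mul_one]
    · intro k hk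
      have h1 : lat ζ n - k = ζ + ((n - k : ℤ) : ℂ) := by unfold lat; push_cast; ring
      rw [h1, f0_int ζ (n - k) (by omega), mul_zero]
  -- transfer to the disc
  have hψ : ∀ z ∈ ball (0 : ℂ) 1, 0 < (I * (1 + z) / (1 - z)).im := by
    intro z hz
    obtain ⟨w, hw, hwz⟩ := cay_surj hz
    have h1 : w + I ≠ 0 := by
      intro h
      have := congrArg Complex.im h
      simp at this
      linarith
    have h2 : I * (1 + z) / (1 - z) = w := by
      rw [← hwz]
      unfold cay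
      have h3 : 1 + (w - I) / (w + I) = 2 * w / (w + I) := by field_simp; ring
      have h4 : 1 - (w - I) / (w + I) = 2 * I / (w + I) := by field_simp; ring
      rw [h3, h4]
      have hI : (I : ℂ) ≠ 0 := Complex.I_ne_zero
      field_simp
    rw [h2]
    exact hw
  have hψl : ∀ w : ℂ, 0 < w.im → I * (1 + cay w) / (1 - cay w) = w := by
    intro w hw
    have h1 : w + I ≠ 0 := by
      intro h
      have := congrArg Complex.im h
      simp at this
      linarith
    unfold cay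
    have h3 : 1 + (w - I) / (w + I) = 2 * w / (w + I) := by field_simp; ring
    have h4 : 1 - (w - I) / (w + I) = 2 * I / (w + I) := by field_simp; ring
    rw [h3, h4]
    have hI : (I : ℂ) ≠ 0 := Complex.I_ne_zero
    field_simp
  have hball : ∀ z ∈ ball (0 : ℂ) 1, ‖F (I * (1 + z) / (1 - z))‖ ≤ K * (3 * s0) + 1 := by
    intro z hz
    exact (hbound _ (hψ z hz)).trans (by linarith)
  refine ⟨fun z => F (I * (1 + z) / (1 - z)), ⟨?_, _, hball⟩, hball, ?_⟩
  · apply hdiff.comp (t := {w | 0 < w.im}) (f := fun z : ℂ => I * (1 + z) / (1 - z))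
    · apply DifferentiableOn.div
      · fun_prop
      · fun_prop
      · intro z hz h
        rw [mem_ball_zero_iff] at hz
        have : z = 1 := by linear_combination -h
        rw [this] at hz
        simp at hz
    · intro z hz
      exact hψ z hz
  · intro n
    have h1 : 0 < (lat ζ n).im := by
      unfold lat
      simpa using hζ
    simp only []
    rw [hψl _ h1]
    exact hval n

end Pool.Agent.W356.GL.IF
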